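import Pool.Agent.Helper23.Weiss.Final

/-!
# Equivalent metrics with almost convergent separation rates

For every compact metric system there is one equivalent metric `D` such that, at every scale `ε`,
the upper and lower growth rates of the `(ε, D_T)`-separated sets lie within a prescribed distance
`κ(ε)` of each other and of the growth rate of the covering numbers. The definitions are in
`Pool/Agent/Helper23/Weiss/Defs.lean`.
-/

set_option autoImplicit false

namespace Pool.Agent.Helper23.Archive.PrescribedOscillation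

open Filter Topology Pool.Agent.Helper23.Weiss

/-- `lim (1/T) log cov(ε, D_T) = c(ε)` exists and
`c(ε) - κ(ε) ≤ liminf (1/T) log sep(ε, D_T) ≤ limsup (1/T) log sep(ε, D_T) ≤ c(ε)`. -/
theorem result {X : Type*} [MetricSpace X] [CompactSpace X] (F : X → X) (κ : ℝ → ℝ)
    (hκ : ∀ ε, 0 < ε → 0 < κ ε) (hmono : MonotoneOn κ (Set.Ioi 0)) :
    ∃ D : X → X → ℝ, IsEquivMetric D ∧ ∀ ε, 0 < ε → ∃ c : ℝ,
      Tendsto (fun T : ℕ => Real.log (cov F D ε T) / T) atTop (𝓝 c) ∧
      (∀ᶠ T : ℕ in atTop, c - κ ε ≤ Real.log (sep F D ε T) / T) ∧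
      ∀ T : ℕ, sep F D ε T ≤ cov F D ε T :=
  main F κ hκ hmono

end Pool.Agent.Helper23.Archive.PrescribedOscillation
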